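import Pool.Agent.N798.H.Stm2

/-!
Project HS (helper798), steps NP and CP: the sequence of the primes and compositions of sequences.
-/

set_option autoImplicit false

namespace Pool.Agent.N75.HS

open Pool.Agent.N798.HS

lemma ge_self {v : ℕ → ℕ} (h1 : ∀ m n, 1 ≤ m → m < n → v m < v n) (h2 : 1 ≤ v 1) (n : ℕ)
    (hn : 1 ≤ n) : n ≤ v n := by
  induction n, hn using Nat.le_induction with
  | base => exact h2
  | succ n hn ih =>
    have := h1 n (n + 1) hn (Nat.lt_succ_self n)
    omega

theorem cp : S_CP := by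
  rintro u v ⟨hu1, hu2, C1, n1, hu3⟩ ⟨hv1, hv2, C2, n2, hv3⟩
  refine ⟨fun m n hm hmn => ?_, ?_, C2 + 2 * C1, max (max n1 n2) (⌈Real.exp (1 + C2)⌉₊ + 3),
    fun n hn => ?_⟩
  · exact hu1 _ _ (hm.trans (ge_self hv1 hv2 m hm)) (hv1 m n hm hmn)
  · exact hv2.trans (ge_self hu1 hu2 (v 1) hv2)
  · have hn1 : n1 ≤ n := ((le_max_left _ _).trans (le_max_left _ _)).trans hn
    have hn2 : n2 ≤ n := ((le_max_right _ _).trans (le_max_left _ _)).trans hn
    have hn3 : ⌈Real.exp (1 + C2)⌉₊ + 3 ≤ n := (le_max_right _ _).trans hn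
    have hexp : Real.exp (1 + C2) ≤ n := (Nat.le_ceil _).trans (by
      exact_mod_cast (by omega : ⌈Real.exp (1 + C2)⌉₊ ≤ n))
    have hn0 : (0:ℝ) < n := by exact_mod_cast (by omega : 0 < n)
    have hlog : 1 + (C2:ℝ) ≤ Real.log n := (Real.le_log_iff_exp_le hn0).2 hexp
    have hvn : n ≤ v n := ge_self hv1 hv2 n (by omega)
    have h1 := hu3 (v n) (hn1.trans hvn)
    have h2 := hv3 n hn2
    have hv0 : (0:ℝ) < v n := by exact_mod_cast (by omega : 0 < v n)
    have hC : (0:ℝ) ≤ C2 := Nat.cast_nonneg C2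
    have hL : 1 ≤ Real.log n := by linarith
    have hL0 : 0 < Real.log n := by linarith
    have h3 : Real.log (v n) ≤ Real.log n + C2 * Real.log (Real.log n) := by
      calc Real.log (v n) ≤ Real.log (n * Real.log n ^ C2) := Real.log_le_log hv0 h2
        _ = _ := by rw [Real.log_mul hn0.ne' (by positivity), Real.log_pow]
    have h4 : Real.log (Real.log n) ≤ Real.log n := Real.log_le_self hL0.le
    have h5 : Real.log (v n) ≤ Real.log n ^ 2 := by nlinarith
    have h6 : 0 ≤ Real.log (v n) := Real.log_natCast_nonneg _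
    show ((u (v n) : ℕ) : ℝ) ≤ n * Real.log n ^ (C2 + 2 * C1)
    calc ((u (v n) : ℕ) : ℝ) ≤ v n * Real.log (v n) ^ C1 := h1
      _ ≤ (n * Real.log n ^ C2) * (Real.log n ^ 2) ^ C1 := by gcongr
      _ = n * Real.log n ^ (C2 + 2 * C1) := by
          rw [pow_add, pow_mul]
          ring

lemma log_le_two_sqrt {x : ℝ} (hx : 0 < x) : Real.log x ≤ 2 * Real.sqrt x := by
  have h1 : Real.log x = 2 * Real.log (Real.sqrt x) := by
    rw [Real.log_sqrt hx.le]
    ring
  have h2 := Real.log_le_self (Real.sqrt_nonneg x)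
  rw [h1]
  linarith

theorem np : S_NP := by
  refine ⟨fun m n hm hmn => Nat.nth_strictMono Nat.infinite_setOfPred_prime (by omega), ?_, 2, 729,
    fun n hn => ?_⟩
  · exact (Nat.prime_nth_prime 0).one_le
  · have hcount : Nat.primeCounting (Nat.nth Nat.Prime (n - 1)) = n := by
      unfold Nat.primeCounting Nat.primeCounting'
      rw [Nat.count_succ, Nat.count_nth_of_infinite Nat.infinite_setOfPred_prime,
        if_pos (Nat.prime_nth_prime _)]
      omega
    have hge : n ≤ Nat.nth Nat.Prime (n - 1) := by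
      refine ge_self (v := fun j => Nat.nth Nat.Prime (j - 1)) (fun m n hm hmn =>
        Nat.nth_strictMono Nat.infinite_setOfPred_prime (by omega)) (Nat.prime_nth_prime 0).one_le n
        (by omega)
    set P := Nat.nth Nat.Prime (n - 1) with hP
    show (P : ℝ) ≤ n * Real.log n ^ 2
    have h1 := Chebyshev.pi_ge P
    rw [hcount] at h1
    have hnr : (729 : ℝ) ≤ n := by exact_mod_cast hn
    have hPn : (n : ℝ) ≤ P := by exact_mod_cast hge
    have hP0 : (0 : ℝ) < P := by linarith
    have hlP : 0 < Real.log P := Real.log_pos (by linarith)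
    rw [div_le_iff₀ hlP] at h1
    have h2 : Real.log (P + 1) ≤ 2 * Real.sqrt (P + 1) := log_le_two_sqrt (by linarith)
    have h3 : 2 * Real.sqrt (P + 1) ≤ 0.19 * P := by
      have h4 : Real.sqrt (P + 1) ≤ 0.095 * P := by
        rw [Real.sqrt_le_left (by positivity)]
        nlinarith
      linarith
    have h5 := Real.log_two_gt_d9
    have h6 : (P : ℝ) ≤ 2 * (n * Real.log P) := by nlinarith
    have h7 : Real.log P ≤ 2 * Real.sqrt P := log_le_two_sqrt hP0
    have hs0 : 0 < Real.sqrt P := Real.sqrt_pos.2 hP0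
    have hsq : Real.sqrt P * Real.sqrt P = P := Real.mul_self_sqrt hP0.le
    have hn0 : (0 : ℝ) < n := by linarith
    have h8 : Real.sqrt P ≤ 4 * n := by
      have h9 : Real.sqrt P * Real.sqrt P ≤ (4 * n) * Real.sqrt P := by
        rw [hsq]
        nlinarith
      exact le_of_mul_le_mul_right h9 hs0
    have h10 : (P : ℝ) ≤ 16 * (n : ℝ) ^ 2 := by nlinarith
    have hlog3 : (1 : ℝ) ≤ Real.log 3 := by
      rw [Real.le_log_iff_exp_le (by norm_num)]
      have := Real.exp_one_lt_d9
      linarith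
    have hlogn : 6 ≤ Real.log n := by
      have h11 : Real.log 729 ≤ Real.log n := Real.log_le_log (by norm_num) hnr
      have h12 : Real.log 729 = 6 * Real.log 3 := by
        rw [show (729 : ℝ) = 3 ^ 6 by norm_num, Real.log_pow]
        norm_num
      linarith
    have h13 : Real.log P ≤ 3 * Real.log n := by
      have h14 : Real.log P ≤ Real.log (16 * (n : ℝ) ^ 2) := Real.log_le_log hP0 h10
      have h15 : Real.log (16 * (n : ℝ) ^ 2) = Real.log 16 + 2 * Real.log n := by
        rw [Real.log_mul (by norm_num) (by positivity), Real.log_pow]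
        norm_num
      have h16 : Real.log 16 ≤ Real.log n := Real.log_le_log (by norm_num) (by linarith)
      linarith
    calc (P : ℝ) ≤ 2 * (n * Real.log P) := h6
      _ ≤ 2 * (n * (3 * Real.log n)) := by gcongr
      _ = n * (6 * Real.log n) := by ring
      _ ≤ n * Real.log n ^ 2 := by
          rw [pow_two]
          gcongr

end Pool.Agent.N75.HS
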